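import Pool.Agent.H40.AG.TargetsE

/-!
ABSOLUTE GAP (`MP_c59857_nt`): small facts for the rows of the sections 1, 2, 7.
-/

set_option autoImplicit false
set_option linter.unusedSectionVars false

open MeasureTheory ProbabilityTheory Filter Topology Finset
open scoped Nat ENNReal

namespace Pool.Agent.H40.AG

open Pool.Agent.H67.AG

section basic

variable {Ω : Type} [mΩ : MeasurableSpace Ω]

theorem inv_le (T : Ω ≃ᵐ Ω) (n : ℕ) : Inv T n ≤ mΩ := MeasurableSpace.invariants_le _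

theorem inv_mono (T : Ω ≃ᵐ Ω) {m n : ℕ} (h : m ∣ n) : Inv T m ≤ Inv T n := by
  obtain ⟨c, rfl⟩ := h
  have := MeasurableSpace.le_invariants_iterate (⇑T)^[m] c
  rwa [← Function.iterate_mul] at this

theorem inv_rt (T : Ω ≃ᵐ Ω) {n : ℕ} (h : 0 < n) : Inv T n ≤ Rt T :=
  le_trans (inv_mono T (Nat.dvd_factorial h le_rfl)) (le_iSup (fun w : ℕ => Inv T (w !)) n)

theorem rt_le (T : Ω ≃ᵐ Ω) : Rt T ≤ mΩ := iSup_le fun _ => inv_le _ _

theorem meas_inv_iff (T : Ω ≃ᵐ Ω) (n : ℕ) (f : Ω → ℝ) :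
    Measurable[Inv T n] f ↔ Measurable f ∧ ∀ ω, f (T^[n] ω) = f ω := by
  constructor
  · intro h
    exact ⟨h.mono (inv_le T n) le_rfl,
      fun ω => congrFun (MeasurableSpace.comp_eq_of_measurable_invariants h) ω⟩
  · rintro ⟨h1, h2⟩
    refine MeasurableSpace.measurable_invariants_dom.2 ⟨h1, fun s _ => ?_⟩
    ext ω
    simp only [Set.mem_preimage, Function.comp_apply, h2]

theorem set_inv_iff (T : Ω ≃ᵐ Ω) (n : ℕ) (A : Set Ω) :
    MeasurableSet[Inv T n] A ↔ MeasurableSet A ∧ ∀ ω, (T^[n] ω ∈ A ↔ ω ∈ A) := by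
  rw [MeasurableSpace.measurableSet_invariants, Set.ext_iff]
  rfl

theorem meas_it (T : Ω ≃ᵐ Ω) (n : ℕ) : Measurable (T^[n]) := T.measurable.iterate n

theorem mp_it {P : Measure Ω} {T : Ω ≃ᵐ Ω} (h : MeasurePreserving T P P) (n : ℕ) :
    MeasurePreserving (T^[n]) P P := h.iterate n

theorem mp_symm {P : Measure Ω} {T : Ω ≃ᵐ Ω} (h : MeasurePreserving T P P) :
    MeasurePreserving T.symm P P := h.symm T

theorem symm_it (T : Ω ≃ᵐ Ω) (n : ℕ) (ω : Ω) : T.symm^[n] (T^[n] ω) = ω :=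
  (Function.LeftInverse.iterate T.symm_apply_apply n) ω

theorem it_symm (T : Ω ≃ᵐ Ω) (n : ℕ) (ω : Ω) : T^[n] (T.symm^[n] ω) = ω :=
  (Function.LeftInverse.iterate T.apply_symm_apply n) ω

theorem bint {P : Measure Ω} [IsFiniteMeasure P] {f : Ω → ℝ} (hf : Measurable f)
    (hb : ∃ C, ∀ ω, |f ω| ≤ C) : Integrable f P := by
  obtain ⟨C, hC⟩ := hb
  exact Integrable.of_bound hf.aestronglyMeasurable C (ae_of_all _ fun ω => by
    rw [Real.norm_eq_abs]; exact hC ω)

/-- a bounded version of the conditional expectation -/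
theorem exists_version {P : Measure Ω} [IsFiniteMeasure P] {m : MeasurableSpace Ω} (hm : m ≤ mΩ)
    {f : Ω → ℝ} (hf : Measurable[mΩ] f) {a b : ℝ} (hab : a ≤ b)
    (h : ∀ ω, a ≤ f ω ∧ f ω ≤ b) : ∃ g : Ω → ℝ, Measurable[m] g ∧ (∀ ω, a ≤ g ω ∧ g ω ≤ b) ∧ P[f | m] =ᵐ[P] g := by
  have hi : Integrable f P := @bint Ω mΩ P _ f hf ⟨max |a| |b|, fun ω => abs_le_max_abs_abs (h ω).1 (h ω).2⟩
  have hm0 : Measurable[m] (P[f | m]) := stronglyMeasurable_condExp.measurable
  refine ⟨fun ω => max a (min b ((P[f | m]) ω)), ?_, ?_, ?_⟩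
  · exact (@measurable_const _ _ _ m a).max ((@measurable_const _ _ _ m b).min hm0)
  · intro ω
    exact ⟨le_max_left _ _, max_le hab (min_le_left _ _)⟩
  · have h1 : ∀ᵐ ω ∂P, a ≤ (P[f | m]) ω := by
      have := condExp_mono (m := m) (integrable_const a) hi (ae_of_all P fun ω => (h ω).1)
      rwa [condExp_const hm] at this
    have h2 : ∀ᵐ ω ∂P, (P[f | m]) ω ≤ b := by
      have := condExp_mono (m := m) hi (integrable_const b) (ae_of_all P fun ω => (h ω).2)
      rwa [condExp_const hm] at this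
    filter_upwards [h1, h2] with ω h1 h2
    rw [min_eq_right h2, max_eq_right h1]

/-- a strictly invariant version of a nearly invariant set -/
theorem exists_strict {P : Measure Ω} {T : Ω ≃ᵐ Ω} (h : MeasurePreserving T P P) {s : Set Ω}
    (hs : MeasurableSet s) (hs' : T ⁻¹' s =ᵐ[P] s) :
    ∃ t, MeasurableSet t ∧ t =ᵐ[P] s ∧ T ⁻¹' t = t :=
  h.quasiMeasurePreserving.exists_preimage_eq_of_preimage_ae hs.nullMeasurableSet hs'

theorem av_meas (T : Ω ≃ᵐ Ω) (W n : ℕ) {f : Ω → ℝ} (hf : Measurable f) :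
    Measurable (Av T W n f) := by
  unfold Av
  exact (Finset.measurable_sum _ fun l _ => hf.comp (meas_it T (W * l))).div_const _

theorem av_bdd (T : Ω ≃ᵐ Ω) (W n : ℕ) {f : Ω → ℝ} {C : ℝ} (hC : 0 ≤ C) (hf : ∀ ω, |f ω| ≤ C)
    (ω : Ω) : |Av T W n f ω| ≤ C := by
  unfold Av
  rw [abs_div, Nat.abs_cast]
  rcases Nat.eq_zero_or_pos n with rfl | hn
  · simpa using hC
  · rw [div_le_iff₀ (by exact_mod_cast hn)]
    refine (Finset.abs_sum_le_sum_abs _ _).trans ((Finset.sum_le_sum fun l _ => hf _).trans ?_)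
    simp [mul_comm]

theorem fac_it {Ω' : Type} [MeasurableSpace Ω'] {P : Measure Ω} {T : Ω ≃ᵐ Ω} {P' : Measure Ω'}
    {T' : Ω' ≃ᵐ Ω'} {g : Ω → Ω'} (h : Fac P T P' T' g) (n : ℕ) (ω : Ω) :
    g (T^[n] ω) = T'^[n] (g ω) := by
  induction n generalizing ω with
  | zero => rfl
  | succ n ih => rw [Function.iterate_succ_apply, ih, h.2, ← Function.iterate_succ_apply]

theorem av_fac {Ω' : Type} [MeasurableSpace Ω'] {P : Measure Ω} {T : Ω ≃ᵐ Ω} {P' : Measure Ω'}
    {T' : Ω' ≃ᵐ Ω'} {g : Ω → Ω'} (h : Fac P T P' T' g) (W n : ℕ) (f : Ω' → ℝ) (ω : Ω) :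
    Av T W n (fun ω => f (g ω)) ω = Av T' W n f (g ω) := by
  unfold Av
  simp only [fac_it h]

end basic

section kernels

variable {X : Type} [mX : MeasurableSpace X] [StandardBorelSpace X]

theorem TT_apply (T : X ≃ᵐ X) (q : X × X) : TT T q = (T q.1, T q.2) := rfl

theorem TT_it (T : X ≃ᵐ X) (n : ℕ) (q : X × X) : (TT T)^[n] q = (T^[n] q.1, T^[n] q.2) := by
  induction n generalizing q with
  | zero => rfl
  | succ n ih => rw [Function.iterate_succ_apply, ih, TT_apply]; rfl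

theorem kap_apply (μ : Measure X) [IsFiniteMeasure μ] (Z : SA X) (x : X) :
    kap μ Z x = condExpKernel μ Z.1 x := rfl

theorem kap_meas (μ : Measure X) [IsFiniteMeasure μ] (Z : SA X) {A : Set X}
    (hA : MeasurableSet A) : Measurable[Z.1] fun x => kap μ Z x A :=
  measurable_condExpKernel hA

theorem condExp_kap (μ : Measure X) [IsFiniteMeasure μ] (Z : SA X) {f : X → ℝ}
    (hf : Measurable f) (hb : ∃ C, ∀ x, |f x| ≤ C) :
    μ[f | Z.1] =ᵐ[μ] fun x => ∫ y, f y ∂(kap μ Z x) :=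
  condExp_ae_eq_integral_condExpKernel Z.2 (bint hf hb)

theorem condExp_kap_set (μ : Measure X) [IsFiniteMeasure μ] (Z : SA X) {A : Set X}
    (hA : MeasurableSet A) :
    (fun x => (kap μ Z x).real A) =ᵐ[μ] μ[A.indicator (fun _ => (1 : ℝ)) | Z.1] :=
  condExpKernel_ae_eq_condExp Z.2 hA

theorem JJ_apply (μ : Measure X) [IsFiniteMeasure μ] (Z : SA X) {A : Set (X × X)}
    (hA : MeasurableSet A) : JJ μ Z A = ∫⁻ x, kap μ Z x (Prod.mk x ⁻¹' A) ∂μ :=
  Measure.compProd_apply hA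

instance (μ : Measure X) [IsProbabilityMeasure μ] (Z : SA X) : IsProbabilityMeasure (JJ μ Z) := by
  unfold JJ
  infer_instance

instance (μ : Measure X) [IsProbabilityMeasure μ] (Z : SA X) (n : ℕ) :
    IsProbabilityMeasure (PN μ Z n) := by
  unfold PN
  infer_instance

instance (μ : Measure X) [IsProbabilityMeasure μ] (Z : SA X) (n : ℕ) (R : Measure (X × X))
    [IsProbabilityMeasure R] : IsProbabilityMeasure (PX μ Z n R) := by
  unfold PX
  infer_instance

theorem JJ_integral (μ : Measure X) [IsProbabilityMeasure μ] (Z : SA X) {F : X × X → ℝ}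
    (hF : Measurable F) (hb : ∃ C, ∀ q, |F q| ≤ C) :
    ∫ q, F q ∂(JJ μ Z) = ∫ x, ∫ y, F (x, y) ∂(kap μ Z x) ∂μ :=
  Measure.integral_compProd (bint hF hb)

/-- the integral over the fibre is measurable -/
theorem kap_int_meas (μ : Measure X) [IsFiniteMeasure μ] (Z : SA X) {F : X × X → ℝ}
    (hF : Measurable F) : Measurable fun x => ∫ y, F (x, y) ∂(kap μ Z x) :=
  (hF.stronglyMeasurable.integral_kernel_prod_right' (κ := kap μ Z)).measurable

end kernels

end Pool.Agent.H40.AG
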