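import Pool.Agent.H67.AG.T1

/-!
ABSOLUTE GAP (`MP_c59857_nt`): additional targets for section 2 and the targets for the system of
section 7 of `H67_gap.md` (references and a point over a nearby point).
-/

set_option autoImplicit false

open MeasureTheory ProbabilityTheory Filter Topology Finset
open scoped Nat ENNReal

namespace Pool.Agent.H40.AG

open Pool.Agent.H67.AG

/-! ### Section 1, additional -/

/-- BK: the pointwise ergodic theorem for `T ^ W`. -/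
def T_BK : Prop := ∀ (Ω : Type) [MeasurableSpace Ω] (P : Measure Ω) [IsProbabilityMeasure P]
  (T : Ω ≃ᵐ Ω) (W : ℕ) (f : Ω → ℝ), MeasurePreserving T P P → Measurable f →
  (∃ C, ∀ ω, |f ω| ≤ C) →
  ∀ᵐ ω ∂P, Tendsto (fun n => Av T W n f ω) atTop (𝓝 ((P[f | Inv T W]) ω))

/-- LVA: the rational part, almost everywhere. -/
def T_LVA : Prop := ∀ (Ω : Type) [MeasurableSpace Ω] (P : Measure Ω) [IsProbabilityMeasure P]
  (T : Ω ≃ᵐ Ω) (f : Ω → ℝ),
  ∀ᵐ ω ∂P, Tendsto (fun w : ℕ => (P[f | Inv T (w !)]) ω) atTop (𝓝 ((P[f | Rt T]) ω))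

/-! ### Section 2, additional -/

/-- CT: conditional expectation of a translate, invariant sub-σ-algebra. -/
def T_CT : Prop := ∀ (X : Type) [MeasurableSpace X] (μ : Measure X) [IsProbabilityMeasure μ]
  (T : X ≃ᵐ X) (Z : SA X) (n : ℕ) (f : X → ℝ), MeasurePreserving T μ μ → InvZ T Z →
  Measurable f → (∃ C, ∀ x, |f x| ≤ C) →
  μ[fun x => f (T^[n] x) | Z.1] =ᵐ[μ] fun x => (μ[f | Z.1]) (T^[n] x)

/-- RA: approximation by functions which depend on the first point through a countable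
partition. -/
def T_RA : Prop := ∀ (X Y : Type) [MeasurableSpace X] [StandardBorelSpace X] [MeasurableSpace Y]
  (J : Measure (X × Y)) [IsProbabilityMeasure J] (K : X × Y → ℝ) (η : ℝ), Measurable K →
  (∀ q, |K q| ≤ 1) → 0 < η →
  ∃ (c : X → ℕ) (S : ℕ × Y → ℝ), Measurable c ∧ Measurable S ∧ (∀ p, |S p| ≤ 1) ∧
    ∫ q, (K q - S (c q.1, q.2)) ^ 2 ∂J ≤ η

/-- JT: the self-joining over the trivial σ-algebra is the product. -/
def T_JT : Prop := ∀ (X : Type) [MeasurableSpace X] [StandardBorelSpace X] (μ : Measure X)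
  [IsProbabilityMeasure μ], JJ μ (triv X) = μ.prod μ

/-- NXM: finitely many lists of admissible functions are controlled by one list. -/
def T_NXM : Prop := ∀ (X : Type) [MeasurableSpace X] [StandardBorelSpace X] (μ : Measure X)
  [IsProbabilityMeasure μ] (T : X ≃ᵐ X) (Z : SA X) (N : ℕ) (n W : Fin N → ℕ)
  (H : ∀ i, Fin (n i) → X × X → ℝ) (ε : Fin N → ℝ), (∀ i, 0 < W i) →
  (∀ i l, Adm T (W i) (H i l)) → (∀ i, 0 < ε i) →
  ∃ (n' W' : ℕ) (H' : Fin n' → X × X → ℝ) (ε' : ℝ), 0 < W' ∧ (∀ l, Adm T W' (H' l)) ∧ 0 < ε' ∧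
    ∀ q, Gb μ Z T n' W' H' q ≤ ε' → ∀ i, Gb μ Z T (n i) (W i) (H i) q ≤ ε i

/-- NXB: complements and finite unions of almost periodic sets. -/
def T_NXB : Prop := ∀ (X : Type) [MeasurableSpace X] [StandardBorelSpace X] (μ : Measure X)
  [IsProbabilityMeasure μ] (T : X ≃ᵐ X) (Z : SA X),
  NX μ T Z ∅ ∧ (∀ A, NX μ T Z A → NX μ T Z Aᶜ) ∧
  ∀ A B, NX μ T Z A → NX μ T Z B → NX μ T Z (A ∪ B)

/-- NXU: countable unions of almost periodic sets. -/
def T_NXU : Prop := ∀ (X : Type) [MeasurableSpace X] [StandardBorelSpace X] (μ : Measure X)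
  [IsProbabilityMeasure μ] (T : X ≃ᵐ X) (Z : SA X), Ergodic T μ → InvZ T Z →
  ∀ A : ℕ → Set X, (∀ i, NX μ T Z (A i)) → NX μ T Z (⋃ i, A i)

/-- NXT: translates of almost periodic sets. -/
def T_NXT : Prop := ∀ (X : Type) [MeasurableSpace X] [StandardBorelSpace X] (μ : Measure X)
  [IsProbabilityMeasure μ] (T : X ≃ᵐ X) (Z : SA X), MeasurePreserving T μ μ → InvZ T Z →
  ∀ A, NX μ T Z A → NX μ T Z (T ⁻¹' A) ∧ NX μ T Z (T.symm ⁻¹' A)

/-- NXR: the sets of `Z` and the sets which are invariant under a power of `T` are almost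
periodic. -/
def T_NXR : Prop := ∀ (X : Type) [MeasurableSpace X] [StandardBorelSpace X] (μ : Measure X)
  [IsProbabilityMeasure μ] (T : X ≃ᵐ X) (Z : SA X),
  (∀ A, MeasurableSet[Z.1] A → NX μ T Z A) ∧
  ∀ (W : ℕ) (A : Set X), 0 < W → MeasurableSet[Inv T W] A → NX μ T Z A

/-- STA: the products of the translates and the averages in the self-joining. -/
def T_STA : Prop := ∀ (X : Type) [MeasurableSpace X] [StandardBorelSpace X] (μ : Measure X)
  [IsProbabilityMeasure μ] (T : X ≃ᵐ X) (Z : SA X) (b H : ℕ) (g : X → ℝ),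
  Measurable g → (∀ x, |g x| ≤ 1) →
    ∑ s ∈ range H, ∑ t ∈ range H,
      ∫ x, ((μ[fun x' => g (T^[b * s] x') * g (T^[b * t] x') | Z.1]) x) ^ 2 ∂μ =
    (H : ℝ) ^ 2 * ∫ q, (Av (TT T) b H (fun q => g q.1 * g q.2) q) ^ 2 ∂(JJ μ Z)

/-- STB: the limit is controlled by the next step of the tower. -/
def T_STB : Prop := ∀ (X : Type) [MeasurableSpace X] [StandardBorelSpace X] (μ : Measure X)
  [IsProbabilityMeasure μ] (T : X ≃ᵐ X) (Z : SA X) (b : ℕ) (g : X → ℝ),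
  Ergodic T μ → InvZ T Z → 0 < b → Measurable g → (∀ x, |g x| ≤ 1) →
  ∫ q, (((JJ μ Z)[fun q => g q.1 * g q.2 | Inv (TT T) b]) q) ^ 2 ∂(JJ μ Z) ≤
    √(∫ x, ((μ[g | (nxt μ T Z).1]) x) ^ 2 ∂μ)

/-- CK: conditional probabilities of rational sets of pairs are rational functions. -/
def T_CK : Prop := ∀ (X : Type) [MeasurableSpace X] [StandardBorelSpace X] (μ : Measure X)
  [IsProbabilityMeasure μ] (T : X ≃ᵐ X) (Z : SA X) (Rel : Set (X × X)),
  MeasurePreserving T μ μ → InvZ T Z → MeasurableSet[Rt (TT T)] Rel →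
  ∃ c : X → ℝ, Measurable[Rt T] c ∧ (∀ x, 0 ≤ c x ∧ c x ≤ 1) ∧
    ∀ᵐ x ∂μ, (kap μ Z x).real {x' | (x', x) ∈ Rel} = c x

/-! ### The system of section 7 -/

section sys

variable {X : Type} [mX : MeasurableSpace X] [StandardBorelSpace X]

/-- the diagonal measure -/
noncomputable def dg (μ : Measure X) : Measure (X × X) := μ.map fun z => (z, z)

/-- the law of a pair of points over a pair with distribution `R` -/
noncomputable def QQ (μ : Measure X) [IsFiniteMeasure μ] (Z : SA X) (R : Measure (X × X)) :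
    Measure (X × X) :=
  (PX μ Z 1 R).map fun q => (q.2.1 0, q.2.2)

end sys

/-- QF: formula for `QQ`. -/
def T_QF : Prop := ∀ (X : Type) [MeasurableSpace X] [StandardBorelSpace X] (μ : Measure X)
  [IsProbabilityMeasure μ] (Z : SA X) (R : Measure (X × X)) [IsProbabilityMeasure R]
  (A : Set (X × X)), MeasurableSet A →
  QQ μ Z R A = ∫⁻ q, ((kap μ Z q.1).prod (kap μ Z q.2)) A ∂(R)

/-- PNL: laws of the references. -/
def T_PNL : Prop := ∀ (X : Type) [MeasurableSpace X] [StandardBorelSpace X] (μ : Measure X)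
  [IsProbabilityMeasure μ] (Z : SA X) (n : ℕ), IsProbabilityMeasure (PN μ Z n) ∧
  MeasurePreserving (fun q : XN X n => q.1) (PN μ Z n) μ ∧
  (∀ b, MeasurePreserving (fun q : XN X n => q.2 b) (PN μ Z n) μ) ∧
  (∀ b, MeasurePreserving (fun q : XN X n => (q.1, q.2 b)) (PN μ Z n) (JJ μ Z)) ∧
  ∀ a b, a ≠ b → MeasurePreserving (fun q : XN X n => (q.2 a, q.2 b)) (PN μ Z n) (JJ μ Z)

/-- PNT: the map on the references preserves the measure. -/
def T_PNT : Prop := ∀ (X : Type) [MeasurableSpace X] [StandardBorelSpace X] (μ : Measure X)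
  [IsProbabilityMeasure μ] (T : X ≃ᵐ X) (Z : SA X) (n : ℕ), MeasurePreserving T μ μ →
  InvZ T Z → MeasurePreserving (TN T n) (PN μ Z n) (PN μ Z n)

/-- PXL: laws in the system of section 7. -/
def T_PXL : Prop := ∀ (X : Type) [MeasurableSpace X] [StandardBorelSpace X] (μ : Measure X)
  [IsProbabilityMeasure μ] (Z : SA X) (n : ℕ) (R : Measure (X × X)) [IsProbabilityMeasure R],
  MeasurePreserving Prod.fst R μ → MeasurePreserving Prod.snd R μ →
  IsProbabilityMeasure (PX μ Z n R) ∧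
  MeasurePreserving (fun q : XX X n => q.1) (PX μ Z n R) R ∧
  MeasurePreserving (prX X n) (PX μ Z n R) (PN μ Z n) ∧
  (∀ b, MeasurePreserving (fun q : XX X n => (q.2.1 b, q.2.2)) (PX μ Z n R) (QQ μ Z R)) ∧
  MeasurePreserving (fun q : XX X n => (q.1.2, q.2.2)) (PX μ Z n R) (JJ μ Z) ∧
  MeasurePreserving (fun q : XX X n => q.2.2) (PX μ Z n R) μ

/-- PXT: the map on the system preserves the measure. -/
def T_PXT : Prop := ∀ (X : Type) [MeasurableSpace X] [StandardBorelSpace X] (μ : Measure X)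
  [IsProbabilityMeasure μ] (T : X ≃ᵐ X) (Z : SA X) (n : ℕ) (R : Measure (X × X))
  [IsProbabilityMeasure R], MeasurePreserving T μ μ → InvZ T Z →
  MeasurePreserving Prod.fst R μ → MeasurePreserving Prod.snd R μ →
  MeasurePreserving (TT T) R R → MeasurePreserving (TX T n) (PX μ Z n R) (PX μ Z n R)

/-- PXF: the factor maps. -/
def T_PXF : Prop := ∀ (X : Type) [MeasurableSpace X] [StandardBorelSpace X] (μ : Measure X)
  [IsProbabilityMeasure μ] (T : X ≃ᵐ X) (Z : SA X) (n : ℕ) (R : Measure (X × X))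
  [IsProbabilityMeasure R], MeasurePreserving T μ μ → InvZ T Z →
  MeasurePreserving Prod.fst R μ → MeasurePreserving Prod.snd R μ →
  MeasurePreserving (TT T) R R →
  Fac (PX μ Z n R) (TX T n) (PN μ Z n) (TN T n) (prX X n) ∧
  (∀ b, Fac (PX μ Z n R) (TX T n) (QQ μ Z R) (TT T) fun q => (q.2.1 b, q.2.2)) ∧
  (∀ b, Fac (PX μ Z n R) (TX T n) μ T fun q => q.2.1 b) ∧
  Fac (PX μ Z n R) (TX T n) μ T (fun q => q.2.2) ∧
  Fac (PX μ Z n R) (TX T n) μ T (fun q => q.1.1) ∧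
  (∀ a b, a ≠ b → Fac (PN μ Z n) (TN T n) (JJ μ Z) (TT T) fun q => (q.2 a, q.2 b)) ∧
  (∀ b, Fac (PN μ Z n) (TN T n) μ T fun q => q.2 b) ∧
  Fac (PN μ Z n) (TN T n) μ T (fun q => q.1) ∧
  (∀ a b, a ≠ b → Fac (PX μ Z n R) (TX T n) (JJ μ Z) (TT T) fun q => (q.2.1 a, q.2.1 b))

/-- QQJ: points over the pairs of the self-joining over a smaller σ-algebra. -/
def T_QQJ : Prop := ∀ (X : Type) [MeasurableSpace X] [StandardBorelSpace X] (μ : Measure X)
  [IsProbabilityMeasure μ] (Z Z' : SA X), Z.1 ≤ Z'.1 → QQ μ Z' (JJ μ Z) = JJ μ Z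

/-- QQA: absolute continuity. -/
def T_QQA : Prop := ∀ (X : Type) [MeasurableSpace X] [StandardBorelSpace X] (μ : Measure X)
  [IsProbabilityMeasure μ] (Z Z' : SA X) (R : Measure (X × X)) [IsProbabilityMeasure R],
  Z.1 ≤ Z'.1 → R ≪ JJ μ Z → QQ μ Z' R ≪ JJ μ Z

/-- QQT: invariance and marginals of the law of a pair. -/
def T_QQT : Prop := ∀ (X : Type) [MeasurableSpace X] [StandardBorelSpace X] (μ : Measure X)
  [IsProbabilityMeasure μ] (T : X ≃ᵐ X) (Z : SA X) (R : Measure (X × X))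
  [IsProbabilityMeasure R], MeasurePreserving T μ μ → InvZ T Z →
  MeasurePreserving Prod.fst R μ → MeasurePreserving Prod.snd R μ →
  MeasurePreserving (TT T) R R →
  IsProbabilityMeasure (QQ μ Z R) ∧ MeasurePreserving (TT T) (QQ μ Z R) (QQ μ Z R) ∧
  MeasurePreserving Prod.fst (QQ μ Z R) μ ∧ MeasurePreserving Prod.snd (QQ μ Z R) μ

/-- DGJ: the diagonal. -/
def T_DGJ : Prop := ∀ (X : Type) [MeasurableSpace X] [StandardBorelSpace X] (μ : Measure X)
  [IsProbabilityMeasure μ] (Z : SA X), IsProbabilityMeasure (dg μ) ∧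
  MeasurePreserving Prod.fst (dg μ) μ ∧ MeasurePreserving Prod.snd (dg μ) μ ∧
  QQ μ Z (dg μ) = JJ μ Z

/-- MEM: membership in the sets of `Z`. -/
def T_MEM : Prop := ∀ (X : Type) [MeasurableSpace X] [StandardBorelSpace X] (μ : Measure X)
  [IsProbabilityMeasure μ] (Z : SA X) (n : ℕ) (A : Set X), MeasurableSet[Z.1] A →
  (∀ b, ∀ᵐ q ∂(PN μ Z n), (q.1 ∈ A ↔ q.2 b ∈ A)) ∧
  ∀ (R : Measure (X × X)) [IsProbabilityMeasure R], MeasurePreserving Prod.fst R μ →
    MeasurePreserving Prod.snd R μ →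
    (∀ b, ∀ᵐ q ∂(PX μ Z n R), (q.1.1 ∈ A ↔ q.2.1 b ∈ A)) ∧
    ∀ᵐ q ∂(PX μ Z n R), (q.1.2 ∈ A ↔ q.2.2 ∈ A)

/-- RPC: the cost of the replacement of the last point by a point over `z`. -/
def T_RPC : Prop := ∀ (X : Type) [MeasurableSpace X] [StandardBorelSpace X] (μ : Measure X)
  [IsProbabilityMeasure μ] (Z : SA X) (n : ℕ) (R : Measure (X × X)) [IsProbabilityMeasure R]
  (F : Type) [Fintype F] (Wd : X → F) (B : F → Set (XN X n)),
  MeasurePreserving Prod.fst R μ → (∀ w, MeasurableSet (Wd ⁻¹' {w})) →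
  (∀ w, MeasurableSet (B w)) →
  (PX μ Z n R).real {q | (q.1.1, q.2.1) ∈ B (Wd q.2.2)} ≤
    (PX μ Z n (dg μ)).real {q | (q.1.1, q.2.1) ∈ B (Wd q.2.2)} +
    ∫ q, ∑ w, |(kap μ Z q.1).real (Wd ⁻¹' {w}) - (kap μ Z q.2).real (Wd ⁻¹' {w})| ∂(R)

/-- NCO: a point of `A` has a good reference with high probability. -/
def T_NCO : Prop := ∀ (X : Type) [MeasurableSpace X] [StandardBorelSpace X] (μ : Measure X)
  [IsProbabilityMeasure μ] (Z : SA X) (n : ℕ) (Rel : Set (X × X)) (A : Set X) (c₀ : ℝ),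
  MeasurableSet Rel → MeasurableSet A → 0 ≤ c₀ → c₀ ≤ 1 →
  (∀ᵐ x ∂μ, x ∈ A → c₀ ≤ (kap μ Z x).real {x' | (x', x) ∈ Rel}) →
  (PX μ Z n (dg μ)).real {q | q.2.2 ∈ A ∧ ∀ b, (q.2.1 b, q.2.2) ∉ Rel} ≤ (1 - c₀) ^ n

end Pool.Agent.H40.AG
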