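import Pool.Agent.H40.AG.Base

set_option autoImplicit false

open MeasureTheory ProbabilityTheory Filter Topology Finset
open scoped Nat ENNReal

namespace Pool.Agent.H40.AG

open Pool.Agent.H67.AG

theorem pf_CK (hDU : T_DU) (hJ2 : T_J2) (hJ3 : T_J3) : T_CK := by
  intro X _ _ μ _ T Z Rel hT hZ hRel
  obtain ⟨-, hfst, hsnd, hswap⟩ := hJ2 X μ Z
  have hTT := (hJ3 X μ T Z hT hZ).1
  have hRm : MeasurableSet Rel := rt_le (TT T) _ hRel
  have hfac : Fac (JJ μ Z) (TT T) μ T Prod.snd := ⟨hsnd, fun ω => rfl⟩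
  have hψm : Measurable[Rt (TT T)] (Rel.indicator fun _ => (1 : ℝ)) :=
    (@measurable_const _ _ _ (Rt (TT T)) (1 : ℝ)).indicator hRel
  obtain ⟨ψ, hψ, hψb, hψi⟩ := hDU (X × X) X (JJ μ Z) μ (TT T) T Prod.snd
    (Rel.indicator fun _ => (1 : ℝ)) hTT hT hfac hψm (fun ω => by
      by_cases h : ω ∈ Rel <;> simp [h])
  refine ⟨ψ, hψ, hψb, ?_⟩
  have hψM : Measurable ψ := hψ.mono (rt_le T) le_rfl
  have hcm : Measurable fun x => (kap μ Z x).real {x' | (x', x) ∈ Rel} := by
    have h1 : MeasurableSet (Prod.swap ⁻¹' Rel) := measurable_swap hRm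
    have := (Kernel.measurable_kernel_prodMk_left (κ := kap μ Z) h1).ennreal_toReal
    exact this
  have hci : Integrable (fun x => (kap μ Z x).real {x' | (x', x) ∈ Rel}) μ :=
    bint hcm ⟨1, fun x => by rw [abs_of_nonneg measureReal_nonneg]; exact measureReal_le_one⟩
  have hpi : Integrable ψ μ := bint hψM ⟨1, fun x => by
    rw [abs_of_nonneg (hψb x).1]; exact (hψb x).2⟩
  refine Integrable.ae_eq_of_forall_setIntegral_eq _ _ hci hpi ?_
  intro s hs _
  have e1 : ∫ x in s, ψ x ∂μ = ∫ x, ψ x * s.indicator (fun _ => (1 : ℝ)) x ∂μ := by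
    rw [← integral_indicator hs]
    refine integral_congr_ae (ae_of_all _ fun x => ?_)
    by_cases hx : x ∈ s <;> simp [hx]
  have hb1 : ∀ ω, |s.indicator (fun _ => (1 : ℝ)) ω| ≤ 1 := fun ω => by
    by_cases hx : ω ∈ s <;> simp [hx]
  rw [e1, ← hψi _ (measurable_const.indicator hs) ⟨1, hb1⟩]
  have hFm : Measurable fun ω : X × X => Rel.indicator (fun _ => (1 : ℝ)) ω *
      s.indicator (fun _ => (1 : ℝ)) ω.2 :=
    (measurable_const.indicator hRm).mul ((measurable_const.indicator hs).comp measurable_snd)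
  have e2 : ∫ ω, Rel.indicator (fun _ => (1 : ℝ)) ω * s.indicator (fun _ => (1 : ℝ)) ω.2 ∂(JJ μ Z)
      = ∫ ω, Rel.indicator (fun _ => (1 : ℝ)) ω.swap * s.indicator (fun _ => (1 : ℝ)) ω.1
        ∂(JJ μ Z) := by
    rw [← hswap.map_eq, integral_map measurable_swap.aemeasurable hFm.aestronglyMeasurable,
      hswap.map_eq]
    rfl
  have hGm : Measurable fun ω : X × X => Rel.indicator (fun _ => (1 : ℝ)) ω.swap *
      s.indicator (fun _ => (1 : ℝ)) ω.1 :=
    ((measurable_const.indicator hRm).comp measurable_swap).mul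
      ((measurable_const.indicator hs).comp measurable_fst)
  rw [e2, JJ_integral μ Z hGm ⟨1, fun q => ?_⟩, ← integral_indicator hs]
  · refine integral_congr_ae (ae_of_all _ fun x => ?_)
    have h3 : ∀ y, Rel.indicator (fun _ => (1 : ℝ)) ((x, y) : X × X).swap *
        s.indicator (fun _ => (1 : ℝ)) (x, y).1 =
        s.indicator (fun _ => (1 : ℝ)) x * ({x' | (x', x) ∈ Rel}.indicator (fun _ => (1 : ℝ)) y) := by
      intro y
      rw [mul_comm]
      congr 1
    simp only [h3]
    have h4 : MeasurableSet {x' | (x', x) ∈ Rel} := measurable_prodMk_right hRm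
    rw [integral_const_mul, integral_indicator_const _ h4]
    by_cases hx : x ∈ s <;> simp [hx]
  · rw [abs_mul]
    exact mul_le_one₀ (by by_cases h : q.swap ∈ Rel <;> simp [h]) (abs_nonneg _) (hb1 _)

end Pool.Agent.H40.AG
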