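import Pool.Agent.H40.AG.QQJ

set_option autoImplicit false

open MeasureTheory ProbabilityTheory Filter Topology Finset
open scoped Nat ENNReal

namespace Pool.Agent.H40.AG

open Pool.Agent.H67.AG

theorem pf_DGJ (hQF : T_QF) (hJ1 : T_J1) : T_DGJ := by
  intro X _ _ μ _ Z
  have hd : Measurable fun z : X => (z, z) := by fun_prop
  have hp : IsProbabilityMeasure (dg μ) := Measure.isProbabilityMeasure_map hd.aemeasurable
  refine ⟨hp, ⟨measurable_fst, ?_⟩, ⟨measurable_snd, ?_⟩, ?_⟩
  · unfold dg
    rw [Measure.map_map measurable_fst hd]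
    exact Measure.map_id
  · unfold dg
    rw [Measure.map_map measurable_snd hd]
    exact Measure.map_id
  · refine Measure.ext_prod fun {A B} hA hB => ?_
    rw [QQ_rect hQF μ Z (dg μ) hA hB, ← ofReal_measureReal (μ := JJ μ Z) (s := A ×ˢ B),
      JJ_rect hJ1 μ Z hA hB]
    congr 1
    unfold dg
    have hm : Measurable fun q : X × X => (kap μ Z q.1).real A * (kap μ Z q.2).real B :=
      ((kap_real_meas μ Z hA).comp measurable_fst).mul ((kap_real_meas μ Z hB).comp measurable_snd)
    rw [integral_map hd.aemeasurable hm.aestronglyMeasurable]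

end Pool.Agent.H40.AG
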