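import Pool.Agent.H40.AG.Base

set_option autoImplicit false

open MeasureTheory ProbabilityTheory Filter Topology Finset
open scoped Nat ENNReal

namespace Pool.Agent.H40.AG

open Pool.Agent.H67.AG

theorem piK_one {X : Type} [MeasurableSpace X] (κ : Kernel X X) [IsMarkovKernel κ] (z : X) :
    (piK κ 1 z).map (fun v => v 0) = κ z := by
  have h := measurePreserving_eval (fun _ : Fin 1 => κ z) 0
  exact h.map_eq

theorem pf_QF : T_QF := by
  intro X _ _ μ _ Z R _ A hA
  have hf : Measurable fun q : XX X 1 => (q.2.1 0, q.2.2) := by fun_prop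
  unfold QQ PX
  rw [Measure.map_apply hf hA, Measure.compProd_apply (hf hA)]
  refine lintegral_congr fun q => ?_
  rw [Kernel.prod_apply, Kernel.comap_apply, Kernel.comap_apply]
  have h1 : (Measure.map (fun p : (Fin 1 → X) × X => (p.1 0, p.2))
      ((piK (kap μ Z) 1 q.1).prod (kap μ Z q.2))) = (kap μ Z q.1).prod (kap μ Z q.2) := by
    have h2 := Measure.map_prod_map (piK (kap μ Z) 1 q.1) (kap μ Z q.2)
      (measurable_pi_apply (0 : Fin 1) (X := fun _ => X)) measurable_id
    rw [piK_one, Measure.map_id] at h2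
    exact h2.symm
  rw [← h1, Measure.map_apply (by fun_prop) hA]
  rfl

end Pool.Agent.H40.AG
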