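import Pool.Agent.H40.AG.Base

set_option autoImplicit false

open MeasureTheory ProbabilityTheory Filter Topology Finset
open scoped Nat ENNReal

namespace Pool.Agent.H40.AG

open Pool.Agent.H67.AG

theorem pf_QM (hJ2 : T_J2) (hJ3 : T_J3) : T_QM := by
  intro X _ _ μ _ T Z hT hZ
  obtain ⟨hJp, hfst, hsnd, -⟩ := hJ2 X μ Z
  have hTT := (hJ3 X μ T Z hT.toMeasurePreserving hZ).1
  refine ⟨?_, ?_⟩
  · intro R hRp hRT hRJ
    have key : ∀ f : X × X → X, Measurable f → MeasurePreserving f (JJ μ Z) μ →
        (∀ q, f (TT T q) = T (f q)) → MeasurePreserving f R μ := by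
      intro f hf hfJ hfT
      have hp : IsProbabilityMeasure (R.map f) := Measure.isProbabilityMeasure_map hf.aemeasurable
      have h1 : MeasurePreserving T (R.map f) (R.map f) := by
        refine ⟨T.measurable, ?_⟩
        rw [Measure.map_map T.measurable hf]
        have h2 : (T : X → X) ∘ f = f ∘ (TT T : X × X → X × X) := by
          funext q
          exact (hfT q).symm
        rw [h2, ← Measure.map_map hf (TT T).measurable, hRT.map_eq]
      have h3 : R.map f ≪ μ := by
        rw [← hfJ.map_eq]
        exact hRJ.map hf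
      exact ⟨hf, hT.eq_of_absolutelyContinuous h1 h3⟩
    exact ⟨key Prod.fst measurable_fst hfst fun q => rfl,
      key Prod.snd measurable_snd hsnd fun q => rfl⟩
  · intro E hE hinv hpos
    have hne : (JJ μ Z) E ≠ 0 := by
      intro h0
      rw [measureReal_def, h0] at hpos
      simp at hpos
    have hp : IsProbabilityMeasure ((JJ μ Z)[|E]) := cond_isProbabilityMeasure hne
    refine ⟨hp, ?_, cond_absolutelyContinuous⟩
    refine ⟨(TT T).measurable, ?_⟩
    unfold ProbabilityTheory.cond
    rw [Measure.map_smul]
    congr 1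
    have h4 := (hTT.restrict_preimage hE).map_eq
    rw [hinv] at h4
    exact h4

end Pool.Agent.H40.AG
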