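import Pool.Agent.H40.AG.Base

set_option autoImplicit false

open MeasureTheory ProbabilityTheory Filter Topology Finset
open scoped Nat ENNReal

namespace Pool.Agent.H40.AG

open Pool.Agent.H67.AG

/-- the mass of a rectangle in the self-joining -/
theorem JJ_rect (hJ1 : T_J1) {X : Type} [MeasurableSpace X] [StandardBorelSpace X]
    (μ : Measure X) [IsProbabilityMeasure μ] (Z : SA X) {A B : Set X} (hA : MeasurableSet A)
    (hB : MeasurableSet B) :
    (JJ μ Z).real (A ×ˢ B) = ∫ x, (kap μ Z x).real A * (kap μ Z x).real B ∂μ := by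
  have h := hJ1 X μ Z (A.indicator fun _ => (1 : ℝ)) (B.indicator fun _ => (1 : ℝ))
    (measurable_const.indicator hA) (measurable_const.indicator hB)
    ⟨1, fun x => by by_cases hx : x ∈ A <;> simp [hx]⟩
    ⟨1, fun x => by by_cases hx : x ∈ B <;> simp [hx]⟩
  have h1 : ∀ q : X × X, A.indicator (fun _ => (1 : ℝ)) q.1 * B.indicator (fun _ => (1 : ℝ)) q.2 =
      (A ×ˢ B).indicator (fun _ => (1 : ℝ)) q := by
    intro q
    by_cases h1 : q.1 ∈ A <;> by_cases h2 : q.2 ∈ B <;> simp [h1, h2, Set.indicator]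
  simp only [h1] at h
  rw [integral_indicator_const _ (hA.prod hB), smul_eq_mul, mul_one] at h
  rw [h]
  refine integral_congr_ae ?_
  filter_upwards [condExp_kap_set μ Z hA, condExp_kap_set μ Z hB] with x ha hb
  rw [ha, hb]

theorem kap_real_meas {X : Type} [MeasurableSpace X] [StandardBorelSpace X]
    (μ : Measure X) [IsProbabilityMeasure μ] (Z : SA X) {A : Set X} (hA : MeasurableSet A) :
    Measurable fun x => (kap μ Z x).real A :=
  ((kap μ Z).measurable_coe hA).ennreal_toReal

theorem kap_real_bdd {X : Type} [MeasurableSpace X] [StandardBorelSpace X]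
    (μ : Measure X) [IsProbabilityMeasure μ] (Z : SA X) (A : Set X) :
    ∃ C, ∀ x, |(kap μ Z x).real A| ≤ C :=
  ⟨1, fun x => by rw [abs_of_nonneg measureReal_nonneg]; exact measureReal_le_one⟩

/-- `QQ` of a rectangle, real form -/
theorem QQ_rect (hQF : T_QF) {X : Type} [MeasurableSpace X] [StandardBorelSpace X]
    (μ : Measure X) [IsProbabilityMeasure μ] (Z : SA X) (R : Measure (X × X))
    [IsProbabilityMeasure R] {A B : Set X} (hA : MeasurableSet A) (hB : MeasurableSet B) :
    (QQ μ Z R) (A ×ˢ B) = ENNReal.ofReal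
      (∫ q, (kap μ Z q.1).real A * (kap μ Z q.2).real B ∂(R)) := by
  have hm : Measurable fun q : X × X => (kap μ Z q.1).real A * (kap μ Z q.2).real B :=
    ((kap_real_meas μ Z hA).comp measurable_fst).mul ((kap_real_meas μ Z hB).comp measurable_snd)
  rw [hQF X μ Z R (A ×ˢ B) (hA.prod hB), ofReal_integral_eq_lintegral_ofReal
    (bint hm ⟨1, fun q => ?_⟩) (ae_of_all _ fun q => mul_nonneg measureReal_nonneg measureReal_nonneg)]
  · refine lintegral_congr fun q => ?_
    rw [Measure.prod_prod, ENNReal.ofReal_mul measureReal_nonneg, ofReal_measureReal,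
      ofReal_measureReal]
  · rw [abs_of_nonneg (mul_nonneg measureReal_nonneg measureReal_nonneg)]
    exact mul_le_one₀ measureReal_le_one measureReal_nonneg measureReal_le_one

instance {X : Type} [MeasurableSpace X] [StandardBorelSpace X]
    (μ : Measure X) [IsProbabilityMeasure μ] (Z : SA X) (R : Measure (X × X))
    [IsProbabilityMeasure R] : IsProbabilityMeasure (QQ μ Z R) := by
  unfold QQ
  exact Measure.isProbabilityMeasure_map (by fun_prop)

theorem pf_QQJ (hQF : T_QF) (hJ1 : T_J1) : T_QQJ := by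
  intro X _ _ μ _ Z Z' hZ
  refine Measure.ext_prod fun {A B} hA hB => ?_
  rw [QQ_rect hQF μ Z' (JJ μ Z) hA hB, ← ofReal_measureReal (μ := JJ μ Z) (s := A ×ˢ B),
    JJ_rect hJ1 μ Z hA hB]
  congr 1
  rw [hJ1 X μ Z (fun x => (kap μ Z' x).real A) (fun x => (kap μ Z' x).real B)
    (kap_real_meas μ Z' hA) (kap_real_meas μ Z' hB) (kap_real_bdd μ Z' A) (kap_real_bdd μ Z' B)]
  have key : ∀ {A : Set X}, MeasurableSet A →
      μ[fun x => (kap μ Z' x).real A | Z.1] =ᵐ[μ] fun x => (kap μ Z x).real A := by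
    intro A hA
    have h1 : μ[fun x => (kap μ Z' x).real A | Z.1] =ᵐ[μ]
        μ[μ[A.indicator (fun _ => (1 : ℝ)) | Z'.1] | Z.1] :=
      condExp_congr_ae (condExp_kap_set μ Z' hA)
    have h2 := condExp_condExp_of_le (μ := μ) (f := A.indicator (fun _ => (1 : ℝ))) hZ Z'.2
    exact (h1.trans h2).trans (condExp_kap_set μ Z hA).symm
  refine integral_congr_ae ?_
  filter_upwards [key hA, key hB] with x ha hb
  rw [ha, hb]

end Pool.Agent.H40.AG
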