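import Pool.Agent.H40.AG.Base

set_option autoImplicit false

open MeasureTheory ProbabilityTheory Filter Topology Finset
open scoped Nat ENNReal

namespace Pool.Agent.H40.AG

open Pool.Agent.H67.AG

theorem pf_QQA (hQF : T_QF) (hQQJ : T_QQJ) : T_QQA := by
  intro X _ _ μ _ Z Z' R _ hZ hR
  refine Measure.AbsolutelyContinuous.mk fun N hN h0 => ?_
  have h1 := hQQJ X μ Z Z' hZ
  have h2 := hQF X μ Z' (JJ μ Z) N hN
  rw [h1, h0] at h2
  have hm : Measurable fun q : X × X => ((kap μ Z' q.1).prod (kap μ Z' q.2)) N := by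
    have h3 := ((Kernel.comap (kap μ Z') Prod.fst measurable_fst) ×ₖ
      (Kernel.comap (kap μ Z') Prod.snd measurable_snd)).measurable_coe hN
    simpa [Kernel.prod_apply, Kernel.comap_apply] using h3
  rw [eq_comm, lintegral_eq_zero_iff hm] at h2
  rw [hQF X μ Z' R N hN, lintegral_eq_zero_iff hm]
  exact hR.ae_le h2

end Pool.Agent.H40.AG
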